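import Pool.Agent.V11242.AV.Sets

/-!
# Continuous images of generalized Luzin and Sierpiński sets
-/

set_option autoImplicit false

namespace Pool.Agent.V11242.AV

open Cardinal MeasureTheory Set Pool.Agent.W684 Pool.Agent.V11242.RN

theorem le_of_countable_union {α : Type} {A : Set α} {B : ℕ → Set α} {C : Set α}
    (h : A ⊆ C ∪ ⋃ n, B n) (hC : #C ≤ ℵ₁) (hB : ∀ n, #(B n) ≤ ℵ₁) : #A ≤ ℵ₁ := by
  refine (mk_le_mk_of_subset h).trans ((mk_union_le _ _).trans ?_)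
  have h1 : #(⋃ n, B n) ≤ ℵ₁ := by
    refine (mk_iUnion_le _).trans ?_
    calc #ℕ * (⨆ n, #(B n)) ≤ ℵ₁ * ℵ₁ := by
          refine mul_le_mul' ?_ (ciSup_le' hB)
          rw [Cardinal.mk_nat]
          exact Cardinal.aleph0_le_aleph 1
      _ = ℵ₁ := Cardinal.mul_eq_self (Cardinal.aleph0_le_aleph 1)
  calc #C + #(⋃ n, B n) ≤ ℵ₁ + ℵ₁ := add_le_add hC h1
    _ = ℵ₁ := Cardinal.add_eq_self (Cardinal.aleph0_le_aleph 1)

/-- continuity at a point in terms of cylinders -/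
theorem exists_open_of_continuousOn {f : (ℕ → Bool) → (ℕ → Bool)} {Z : Set (ℕ → Bool)}
    (hf : ContinuousOn f Z) {V : Set (ℕ → Bool)} (hV : IsOpen V) :
    ∃ O, IsOpen O ∧ Z ∩ f ⁻¹' V = Z ∩ O := by
  obtain ⟨O, hO, h⟩ := continuousOn_iff'.mp hf V hV
  refine ⟨O, hO, ?_⟩
  rw [Set.inter_comm Z, h, Set.inter_comm]

theorem tsum_bound (n : ℕ) : ∑' i : ℕ, (2 : ENNReal)⁻¹ ^ (n + i + 1) ≤ (2 : ENNReal)⁻¹ ^ n := by
  have h1 : ∀ i : ℕ, (2 : ENNReal)⁻¹ ^ (n + i + 1) = (2 : ENNReal)⁻¹ ^ n * (2 : ENNReal)⁻¹ ^ (i + 1) := by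
    intro i
    rw [← pow_add]
    congr 1
  rw [tsum_congr h1, ENNReal.tsum_mul_left]
  have h2 : ∑' i : ℕ, (2 : ENNReal)⁻¹ ^ (i + 1) = 1 := by
    rw [ENNReal.tsum_geometric_add_one, ENNReal.one_sub_inv_two, inv_inv]
    exact ENNReal.inv_mul_cancel two_ne_zero ENNReal.ofNat_ne_top
  rw [h2, mul_one]

theorem exists_opens {f : (ℕ → Bool) → (ℕ → Bool)} {Z : Set (ℕ → Bool)} (hf : ContinuousOn f Z)
    (hZ : Z.Nonempty) :
    ∃ (O : ℕ → ℕ → Set (ℕ → Bool)) (N : Set (ℕ → Bool)), lam N = 0 ∧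
      (∀ n i, IsOpen (O n i)) ∧ (∀ n, CND (closure Z \ ⋃ i, O n i)) ∧
      ∀ z ∈ Z, (∀ n, ∃ i, z ∈ O n i) → f z ∈ N := by
  classical
  have : Nonempty Z := hZ.to_subtype
  let d : ℕ → Z := TopologicalSpace.denseSeq Z
  have hd : DenseRange d := TopologicalSpace.denseRange_denseSeq Z
  let V : ℕ → ℕ → Set (ℕ → Bool) := fun n i => cyl (seg (f (d i)) (n + i + 1))
  have hO : ∀ n i, ∃ O, IsOpen O ∧ Z ∩ f ⁻¹' (V n i) = Z ∩ O := fun n i =>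
    exists_open_of_continuousOn hf (isOpen_cyl _)
  choose O hO1 hO2 using hO
  have hdO : ∀ n i, (d i).1 ∈ O n i := by
    intro n i
    have h1 : (d i).1 ∈ Z ∩ f ⁻¹' (V n i) := ⟨(d i).2, mem_cyl_seg.mpr fun _ _ => rfl⟩
    rw [hO2] at h1
    exact h1.2
  refine ⟨O, ⋂ n, ⋃ i, V n i, ?_, hO1, fun n => ⟨?_, ?_⟩, ?_⟩
  · rw [← nonpos_iff_eq_zero]
    refine le_of_forall_gt fun ε hε => ?_
    have hε : (0 : ENNReal) < ε := hε
    obtain ⟨n, hn⟩ := ENNReal.exists_inv_two_pow_lt hε.ne'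
    refine lt_of_le_of_lt ?_ hn
    calc lam (⋂ n, ⋃ i, V n i) ≤ lam (⋃ i, V n i) := measure_mono (iInter_subset _ n)
      _ ≤ ∑' i, lam (V n i) := measure_iUnion_le _
      _ = ∑' i : ℕ, (2 : ENNReal)⁻¹ ^ (n + i + 1) := by
          refine tsum_congr fun i => ?_
          rw [lam_cyl, length_seg]
      _ ≤ _ := tsum_bound n
  · exact isClosed_closure.sdiff (isOpen_iUnion fun i => hO1 n i)
  · rw [Set.eq_empty_iff_forall_notMem]
    intro w hw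
    have h1 : w ∈ closure Z := (interior_subset hw).1
    obtain ⟨z, hz1, hz2⟩ := mem_closure_iff.mp h1 _ isOpen_interior hw
    -- a dense point in the open set
    have h2 : IsOpen (Subtype.val ⁻¹' interior (closure Z \ ⋃ i, O n i) : Set Z) :=
      isOpen_interior.preimage continuous_subtype_val
    obtain ⟨i, hi⟩ := hd.exists_mem_open h2 ⟨⟨z, hz2⟩, hz1⟩
    have h3 := (interior_subset (s := closure Z \ ⋃ i, O n i) hi).2
    exact h3 (mem_iUnion.mpr ⟨i, hdO n i⟩)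
  · intro z hz h
    refine mem_iInter.mpr fun n => ?_
    obtain ⟨i, hi⟩ := h n
    have h1 : z ∈ Z ∩ f ⁻¹' (V n i) := by
      rw [hO2]
      exact ⟨hz, hi⟩
    exact mem_iUnion.mpr ⟨i, h1.2⟩

/-- A continuous image, inside a generalized Sierpiński set, of a subset of a generalized Luzin
set is small. -/
theorem image_le_of_luzin {X Y : Set (ℕ → Bool)}
    (hX : ∀ F, CND F → #(X ∩ F : Set (ℕ → Bool)) ≤ ℵ₁)
    (hY : ∀ N, lam N = 0 → #(Y ∩ N : Set (ℕ → Bool)) ≤ ℵ₁)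
    {Z : Set (ℕ → Bool)} (hZX : Z ⊆ X) {f : (ℕ → Bool) → (ℕ → Bool)} (hf : ContinuousOn f Z)
    (hfY : f '' Z ⊆ Y) : #(f '' Z) ≤ ℵ₁ := by
  classical
  rcases Z.eq_empty_or_nonempty with rfl | hne
  · simp
  obtain ⟨O, N, hN, hO, hcnd, hmem⟩ := exists_opens hf hne
  refine le_of_countable_union (C := Y ∩ N) (B := fun n => f '' (X ∩ (closure Z \ ⋃ i, O n i)))
    ?_ (hY N hN) fun n => mk_image_le.trans (hX _ (hcnd n))
  rintro _ ⟨z, hz, rfl⟩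
  by_cases h : ∀ n, ∃ i, z ∈ O n i
  · exact Or.inl ⟨hfY ⟨z, hz, rfl⟩, hmem z hz h⟩
  · push Not at h
    obtain ⟨n, hn⟩ := h
    right
    refine mem_iUnion.mpr ⟨n, z, ⟨hZX hz, subset_closure hz, ?_⟩, rfl⟩
    intro hc
    obtain ⟨i, hi⟩ := mem_iUnion.mp hc
    exact hn i hi

theorem cyl_append_subset (σ : List Bool) (b : Bool) : cyl (σ ++ [b]) ⊆ cyl σ :=
  cyl_anti (List.prefix_append _ _)

theorem cyl_disjoint (σ : List Bool) : Disjoint (cyl (σ ++ [true])) (cyl (σ ++ [false])) := by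
  rw [Set.disjoint_left]
  intro x hx hx'
  have h1 := hx σ.length (by simp)
  have h2 := hx' σ.length (by simp)
  rw [h1] at h2
  simp [List.getD_eq_getElem?_getD] at h2

/-- Small preimages of basic clopen sets. -/
theorem exists_small_cyl {f : (ℕ → Bool) → (ℕ → Bool)} {Z : Set (ℕ → Bool)}
    (hf : ContinuousOn f Z) (σ : List Bool) (L : ℕ) :
    ∃ τ, σ <+: τ ∧ lam (Z ∩ f ⁻¹' (cyl τ)) ≤ (2 : ENNReal)⁻¹ ^ L := by
  induction L with
  | zero =>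
    refine ⟨σ, List.prefix_rfl, ?_⟩
    rw [pow_zero]
    exact prob_le_one
  | succ L ih =>
    obtain ⟨τ, hτ, hle⟩ := ih
    obtain ⟨O, hO, hOeq⟩ := exists_open_of_continuousOn hf (isOpen_cyl (τ ++ [true]))
    have h1 := measure_inter_add_sdiff (μ := lam) (Z ∩ f ⁻¹' (cyl τ)) hO.measurableSet
    have h2 : Z ∩ f ⁻¹' (cyl (τ ++ [true])) ⊆ Z ∩ f ⁻¹' (cyl τ) ∩ O := by
      intro x hx
      refine ⟨⟨hx.1, cyl_append_subset _ _ hx.2⟩, ?_⟩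
      rw [hOeq] at hx
      exact hx.2
    have h3 : Z ∩ f ⁻¹' (cyl (τ ++ [false])) ⊆ (Z ∩ f ⁻¹' (cyl τ)) \ O := by
      intro x hx
      refine ⟨⟨hx.1, cyl_append_subset _ _ hx.2⟩, fun hxO => ?_⟩
      have h4 : x ∈ Z ∩ O := ⟨hx.1, hxO⟩
      rw [← hOeq] at h4
      exact Set.disjoint_left.mp (cyl_disjoint τ) h4.2 hx.2
    have h5 : lam (Z ∩ f ⁻¹' (cyl (τ ++ [true]))) + lam (Z ∩ f ⁻¹' (cyl (τ ++ [false]))) ≤
        (2 : ENNReal)⁻¹ ^ L :=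
      (add_le_add (measure_mono h2) (measure_mono h3)).trans (h1.le.trans hle)
    by_contra hcon
    push Not at hcon
    have h6 := hcon (τ ++ [true]) (hτ.trans (List.prefix_append _ _))
    have h7 := hcon (τ ++ [false]) (hτ.trans (List.prefix_append _ _))
    have h8 : (2 : ENNReal)⁻¹ ^ (L + 1) + (2 : ENNReal)⁻¹ ^ (L + 1) = (2 : ENNReal)⁻¹ ^ L := by
      rw [pow_succ, ← mul_add, ENNReal.inv_two_add_inv_two, mul_one]
    rw [← h8] at h5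
    exact absurd h5 (not_le.mpr (ENNReal.add_lt_add h6 h7))

/-- A continuous image, inside a generalized Luzin set, of a subset of a generalized Sierpiński
set is small. -/
theorem image_le_of_sierpinski {X Y : Set (ℕ → Bool)}
    (hX : ∀ F, CND F → #(X ∩ F : Set (ℕ → Bool)) ≤ ℵ₁)
    (hY : ∀ N, lam N = 0 → #(Y ∩ N : Set (ℕ → Bool)) ≤ ℵ₁)
    {Z : Set (ℕ → Bool)} (hZY : Z ⊆ Y) {f : (ℕ → Bool) → (ℕ → Bool)} (hf : ContinuousOn f Z)
    (hfX : f '' Z ⊆ X) : #(f '' Z) ≤ ℵ₁ := by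
  classical
  obtain ⟨e, he⟩ := exists_surjective_nat (List Bool)
  have h1 : ∀ n i, ∃ τ, e i <+: τ ∧ lam (Z ∩ f ⁻¹' (cyl τ)) ≤ (2 : ENNReal)⁻¹ ^ (n + i + 1) :=
    fun n i => exists_small_cyl hf _ _
  choose τ hτ1 hτ2 using h1
  let V : ℕ → Set (ℕ → Bool) := fun n => ⋃ i, cyl (τ n i)
  have hVopen : ∀ n, IsOpen (V n) := fun n => isOpen_iUnion fun i => isOpen_cyl _
  have hcnd : ∀ n, CND (V n)ᶜ := by
    intro n
    refine ⟨(hVopen n).isClosed_compl, ?_⟩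
    rw [Set.eq_empty_iff_forall_notMem]
    intro w hw
    obtain ⟨m, hm⟩ := exists_seg_subset isOpen_interior hw
    obtain ⟨i, hi⟩ := he (seg w m)
    obtain ⟨z, hz⟩ := cyl_nonempty (τ n i)
    have h2 : z ∈ cyl (seg w m) := by
      rw [← hi]
      exact cyl_anti (hτ1 n i) hz
    exact (interior_subset (s := (V n)ᶜ) (hm h2)) (mem_iUnion.mpr ⟨i, hz⟩)
  have hnull : lam (Z ∩ ⋂ n, f ⁻¹' (V n)) = 0 := by
    rw [← nonpos_iff_eq_zero]
    refine le_of_forall_gt fun ε hε => ?_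
    have hε : (0 : ENNReal) < ε := hε
    obtain ⟨n, hn⟩ := ENNReal.exists_inv_two_pow_lt hε.ne'
    refine lt_of_le_of_lt ?_ hn
    calc lam (Z ∩ ⋂ n, f ⁻¹' (V n)) ≤ lam (⋃ i, Z ∩ f ⁻¹' (cyl (τ n i))) := by
          refine measure_mono ?_
          rintro x ⟨hx, hx'⟩
          obtain ⟨i, hi⟩ := mem_iUnion.mp (mem_iInter.mp hx' n)
          exact mem_iUnion.mpr ⟨i, hx, hi⟩
      _ ≤ ∑' i, lam (Z ∩ f ⁻¹' (cyl (τ n i))) := measure_iUnion_le _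
      _ ≤ ∑' i : ℕ, (2 : ENNReal)⁻¹ ^ (n + i + 1) := ENNReal.tsum_le_tsum fun i => hτ2 n i
      _ ≤ _ := tsum_bound n
  refine le_of_countable_union (C := f '' (Y ∩ (Z ∩ ⋂ n, f ⁻¹' (V n))))
    (B := fun n => X ∩ (V n)ᶜ) ?_ (mk_image_le.trans (hY _ hnull)) fun n => hX _ (hcnd n)
  rintro _ ⟨z, hz, rfl⟩
  by_cases h : ∀ n, f z ∈ V n
  · exact Or.inl ⟨z, ⟨hZY hz, hz, mem_iInter.mpr h⟩, rfl⟩
  · push Not at h
    obtain ⟨n, hn⟩ := h
    exact Or.inr (mem_iUnion.mpr ⟨n, hfX ⟨z, hz, rfl⟩, hn⟩)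

end Pool.Agent.V11242.AV
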