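import Pool.Agent.V11242.AV.Avoid

/-!
# Under Martin's axiom functions on sets of size `ℵ₁` are countable unions of continuous ones
-/

set_option autoImplicit false

namespace Pool.Agent.V11242.AV

open Cardinal Set Pool.Agent.W684 Pool.Agent.V11242.RN
open Pool.Agent.W910.Hull (ma_indexed mk_Om1 not_countable_univ Om1)

/-- The conditions. -/
structure CP (x y : Om1 → (ℕ → Bool)) where
  h : Finset (List Bool × List Bool)
  F : Finset Om1

variable {x y : Om1 → (ℕ → Bool)}

instance : Preorder (CP x y) where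
  le q p := p.h ⊆ q.h ∧ p.F ⊆ q.F ∧ ∀ s ∈ q.h, s ∉ p.h → ∀ a ∈ p.F,
    s.1 = seg (x a) s.1.length → s.2 = seg (y a) s.1.length
  le_refl p := ⟨subset_rfl, subset_rfl, fun s hs hs' => absurd hs hs'⟩
  le_trans r q p h1 h2 := by
    refine ⟨h2.1.trans h1.1, h2.2.1.trans h1.2.1, fun s hs hs' a ha hsa => ?_⟩
    by_cases hq : s ∈ q.h
    · exact h2.2.2 s hq hs' a ha hsa
    · exact h1.2.2 s hs hq a (h2.2.1 ha) hsa

theorem cp_ccc : IsCCC (CP x y) := by
  classical
  intro A hA
  refine Set.countable_of_injective_of_countable_image (f := fun p : CP x y => p.h) ?_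
    (Set.to_countable _)
  intro p hp q hq heq
  by_contra hne
  simp only at heq
  refine hA p hp q hq hne ⟨⟨p.h, p.F ∪ q.F⟩, ⟨subset_rfl, Finset.subset_union_left, ?_⟩,
    ⟨heq ▸ subset_rfl, Finset.subset_union_right, ?_⟩⟩
  · intro s hs hs'
    exact absurd hs hs'
  · intro s hs hs'
    exact absurd (heq ▸ hs) hs'

/-- Under Martin's axiom, every one-to-one indexed family of points can be mapped continuously on an
uncountable set of indices. -/
theorem exists_continuous (hMA : MartinAxiomAleph1) (hx : Function.Injective x) :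
    ∃ A : Set Om1, ¬ A.Countable ∧ ∀ a ∈ A, ∀ n, ∃ m, ∀ b ∈ A,
      (∀ i < m, x b i = x a i) → ∀ i < n, y b i = y a i := by
  classical
  have : Nonempty (CP x y) := ⟨⟨∅, ∅⟩⟩
  obtain ⟨G, ⟨p0, hp0⟩, hup, hdir, hGD⟩ := ma_indexed hMA (cp_ccc (x := x) (y := y))
    (ι := Om1 ⊕ Om1 × ℕ) (by
      rw [Cardinal.mk_sum, Cardinal.mk_prod]
      simp only [Cardinal.lift_id, Cardinal.mk_nat, mk_Om1]
      calc ℵ₁ + ℵ₁ * ℵ₀ ≤ ℵ₁ + ℵ₁ * ℵ₁ := by
            gcongr
            exact Cardinal.aleph0_le_aleph 1
        _ = ℵ₁ := by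
            rw [Cardinal.mul_eq_self (Cardinal.aleph0_le_aleph 1),
              Cardinal.add_eq_self (Cardinal.aleph0_le_aleph 1)])
    (fun j => match j with
      | Sum.inl a => {p | a ∈ p.F}
      | Sum.inr (a, n) => {p | ∃ m ≥ n, (seg (x a) m, seg (y a) m) ∈ p.h}) (by
      rintro (a | ⟨a, n⟩) p
      · exact ⟨⟨p.h, insert a p.F⟩, Finset.mem_insert_self _ _, subset_rfl,
          Finset.subset_insert _ _, fun s hs hs' => absurd hs hs'⟩
      · -- choose `m` separating `x a` from the other `x b`
        have h1 : ∀ b ∈ p.F, ∃ m, b ≠ a → seg (x a) m ≠ seg (x b) m ∧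
            ∀ m' ≥ m, seg (x a) m' ≠ seg (x b) m' := by
          intro b _
          by_cases hba : b = a
          · exact ⟨0, fun h => absurd hba h⟩
          · obtain ⟨i, hi⟩ := Function.ne_iff.mp (fun h => hba (hx h) : x b ≠ x a)
            have h2 : ∀ m' ≥ i + 1, seg (x a) m' ≠ seg (x b) m' := by
              intro m' hm' heq
              have h3 := congrArg (fun l => List.getD l i false) heq
              rw [getD_seg _ (by omega), getD_seg _ (by omega)] at h3
              exact hi h3.symm
            exact ⟨i + 1, fun _ => ⟨h2 _ le_rfl, h2⟩⟩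
        choose! M hM using h1
        let m := max n (p.F.sup M)
        refine ⟨⟨insert (seg (x a) m, seg (y a) m) p.h, p.F⟩, ⟨m, le_max_left _ _,
          Finset.mem_insert_self _ _⟩, Finset.subset_insert _ _, subset_rfl, ?_⟩
        intro s hs hs' b hb hsb
        rcases Finset.mem_insert.mp hs with rfl | h
        · simp only [length_seg] at hsb ⊢
          by_cases hba : b = a
          · rw [hba]
          · exact absurd hsb ((hM b hb hba).2 m
              ((Finset.le_sup hb).trans (le_max_right _ _)))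
        · exact absurd h hs')
  -- the relation
  let H : Set (List Bool × List Bool) := {s | ∃ p ∈ G, s ∈ p.h}
  have hthr : ∀ a : Om1, ∃ k, ∀ s ∈ H, k ≤ s.1.length → s.1 = seg (x a) s.1.length →
      s.2 = seg (y a) s.1.length := by
    intro a
    obtain ⟨p, hpG, hpa⟩ := hGD (Sum.inl a)
    have hpa : a ∈ p.F := hpa
    refine ⟨p.h.sup (fun s => s.1.length) + 1, ?_⟩
    rintro s ⟨q, hqG, hsq⟩ hlen hs
    obtain ⟨r, hr, hrp, hrq⟩ := hdir p hpG q hqG
    refine hrp.2.2 s (hrq.1 hsq) (fun hsp => ?_) a hpa hs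
    have := Finset.le_sup (f := fun s : List Bool × List Bool => s.1.length) hsp
    omega
  choose k hk using hthr
  obtain ⟨K, hK⟩ : ∃ K, ¬ {a | k a = K}.Countable := by
    by_contra hcon
    push Not at hcon
    apply Pool.Agent.W910.Hull.not_countable_univ
    have h1 : (Set.univ : Set Om1) ⊆ ⋃ K, {a | k a = K} := fun a _ => mem_iUnion.mpr ⟨k a, rfl⟩
    exact (countable_iUnion hcon).mono h1
  refine ⟨{a | k a = K}, hK, fun a ha n => ?_⟩
  obtain ⟨p, hpG, m, hm, hmem⟩ := hGD (Sum.inr (a, max n K))
  refine ⟨m, fun b hb hab i hi => ?_⟩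
  have ha' : k a = K := ha
  have hb' : k b = K := hb
  have hseg : seg (x a) m = seg (x b) m := by
    apply List.ext_getElem
    · simp [length_seg]
    · intro j h1 h2
      rw [length_seg] at h1
      simp only [seg, List.getElem_map, List.getElem_range]
      exact (hab j h1).symm
  have h1 := hk b (seg (x a) m, seg (y a) m) ⟨p, hpG, hmem⟩
    (by simp only [length_seg]; rw [hb']; exact (le_max_right _ _).trans hm)
    (by simp only [length_seg]; exact hseg)
  simp only [length_seg] at h1
  have him : i < m := lt_of_lt_of_le hi ((le_max_left _ _).trans hm)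
  have h2 := congrArg (fun l => List.getD l i false) h1
  rw [getD_seg _ him, getD_seg _ him] at h2
  exact h2.symm

end Pool.Agent.V11242.AV
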