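import Pool.Agent.V11242.RN.Ground
import Pool.Agent.W910.Hull.MATools

/-!
# Martin's axiom and small sets in the Cantor space
-/

set_option autoImplicit false

namespace Pool.Agent.V11242.AV

open Cardinal MeasureTheory Set Pool.Agent.W684 Pool.Agent.V11242.RN
open Pool.Agent.W910.Hull (ma_indexed mk_Om1)

set_option linter.unusedSectionVars false

section measure

variable {X : Type} [TopologicalSpace X] [SecondCountableTopology X] [MeasurableSpace X]
  [BorelSpace X] (μ : Measure X)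

theorem measure_iUnion_eq_iSup_finset {ι : Type} [Countable ι] (f : ι → Set X) :
    μ (⋃ i, f i) = ⨆ t : Finset ι, μ (⋃ i ∈ t, f i) := by
  classical
  have h1 : (⋃ i, f i) = ⋃ t : Finset ι, ⋃ i ∈ t, f i := by
    ext x
    simp only [Set.mem_iUnion]
    constructor
    · rintro ⟨i, hi⟩
      exact ⟨{i}, i, by simp, hi⟩
    · rintro ⟨t, i, _, hi⟩
      exact ⟨i, hi⟩
  rw [h1]
  apply Directed.measure_iUnion
  intro s t
  refine ⟨s ∪ t, ?_, ?_⟩
  · intro x hx
    simp only [Set.mem_iUnion] at hx ⊢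
    obtain ⟨i, hi, hx⟩ := hx
    exact ⟨i, Finset.mem_union_left _ hi, hx⟩
  · intro x hx
    simp only [Set.mem_iUnion] at hx ⊢
    obtain ⟨i, hi, hx⟩ := hx
    exact ⟨i, Finset.mem_union_right _ hi, hx⟩

/-- finite unions of basic open sets -/
noncomputable def fu (t : Finset (TopologicalSpace.countableBasis X)) : Set X := ⋃ b ∈ t, b.1

theorem exists_fu {V : Set X} (hV : IsOpen V) (hfin : μ V ≠ ⊤) {δ : ENNReal} (hδ : δ ≠ 0) :
    ∃ t, fu t ⊆ V ∧ μ V < μ (fu t) + δ := by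
  classical
  obtain ⟨S, hS1, hS2⟩ := (TopologicalSpace.isBasis_countableBasis X).open_eq_sUnion hV
  by_contra hcon
  push Not at hcon
  have hSc : S.Countable := (TopologicalSpace.countable_countableBasis X).mono hS1
  have h1 : μ V = ⨆ t : Finset S, μ (⋃ b ∈ t, b.1) := by
    rw [hS2, Set.sUnion_eq_iUnion]
    have : Countable S := hSc.to_subtype
    exact measure_iUnion_eq_iSup_finset _ _
  have h2 : ∀ t : Finset S, μ (⋃ b ∈ t, b.1) + δ ≤ μ V := by
    intro t
    have h3 := hcon (t.image fun b => (⟨b.1, hS1 b.2⟩ : TopologicalSpace.countableBasis X)) (by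
      intro x hx
      simp only [fu, Set.mem_iUnion, Finset.mem_image] at hx
      obtain ⟨b, ⟨c, hc, rfl⟩, hx⟩ := hx
      rw [hS2]
      exact ⟨c.1, c.2, hx⟩)
    refine le_trans ?_ h3
    gcongr
    intro x hx
    simp only [Set.mem_iUnion] at hx
    obtain ⟨b, hb, hx⟩ := hx
    simp only [fu, Set.mem_iUnion, Finset.mem_image]
    exact ⟨_, ⟨b, hb, rfl⟩, hx⟩
  have h4 : μ V + δ ≤ μ V := by
    conv_lhs => rw [h1]
    rw [ENNReal.iSup_add]
    exact iSup_le h2
  exact absurd h4 (not_le.2 (ENNReal.lt_add_right hfin hδ))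

/-- the amoeba preorder -/
def Amoeba (ε : ENNReal) : Type := {V : Set X // IsOpen V ∧ μ V < ε}

instance (ε : ENNReal) : Preorder (Amoeba μ ε) where
  le V W := W.1 ⊆ V.1
  le_refl V := Set.Subset.refl _
  le_trans V W X h1 h2 := Set.Subset.trans h2 h1

theorem amoeba_ccc {ε : ENNReal} : IsCCC (Amoeba μ ε) := by
  intro A hA
  have h1 : ∀ V : Amoeba μ ε, ∃ t, fu t ⊆ V.1 ∧ μ V.1 < μ (fu t) + (ε - μ V.1) := by
    intro V
    exact exists_fu μ V.2.1 (V.2.2.trans_le le_top).ne (tsub_pos_of_lt V.2.2).ne'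
  choose t ht1 ht2 using h1
  refine Set.countable_of_injective_of_countable_image (f := t) (s := A) ?_
    (Set.to_countable _)
  intro V hV W hW heq
  by_contra hne
  wlog hle : μ V.1 ≤ μ W.1 generalizing V W
  · exact this hW hV heq.symm (fun h => hne h.symm) (le_of_not_ge hle)
  apply hA V hV W hW hne
  have hVtop : μ V.1 ≠ ⊤ := (V.2.2.trans_le le_top).ne
  have hWtop : μ W.1 ≠ ⊤ := (W.2.2.trans_le le_top).ne
  refine ⟨⟨V.1 ∪ W.1, V.2.1.union W.2.1, ?_⟩, Set.subset_union_left, Set.subset_union_right⟩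
  have h3 : μ (V.1 ∪ W.1) + μ (fu (t V)) ≤ μ V.1 + μ W.1 := by
    rw [← measure_union_add_inter V.1 W.2.1.measurableSet]
    gcongr
    exact Set.subset_inter (ht1 V) (heq ▸ ht1 W)
  have hfu : μ (fu (t V)) ≠ ⊤ :=
    ((measure_mono (ht1 V)).trans_lt (V.2.2.trans_le le_top)).ne
  by_contra hcon
  rw [not_lt] at hcon
  have h4 : μ W.1 < μ (fu (t V)) + (ε - μ W.1) := by
    rw [heq]
    exact ht2 W
  have h5 : μ V.1 + μ W.1 < μ V.1 + (μ (fu (t V)) + (ε - μ W.1)) :=
    ENNReal.add_lt_add_left hVtop h4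
  have h6 : μ V.1 + (μ (fu (t V)) + (ε - μ W.1)) ≤ ε + μ (fu (t V)) := by
    calc μ V.1 + (μ (fu (t V)) + (ε - μ W.1))
        ≤ μ W.1 + (μ (fu (t V)) + (ε - μ W.1)) := by gcongr
      _ = (μ W.1 + (ε - μ W.1)) + μ (fu (t V)) := by ring
      _ = ε + μ (fu (t V)) := by rw [add_tsub_cancel_of_le W.2.2.le]
  have h7 : ε + μ (fu (t V)) ≤ μ (V.1 ∪ W.1) + μ (fu (t V)) := by gcongr
  exact absurd (h7.trans h3) (not_le.2 (h5.trans_le h6))

/-- Under Martin's axiom the union of `ℵ₁` null sets is null. -/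
theorem null_iUnion [μ.OuterRegular] (hMA : MartinAxiomAleph1) {ι : Type} (hι : #ι ≤ ℵ₁)
    (N : ι → Set X) (hN : ∀ i, μ (N i) = 0) : μ (⋃ i, N i) = 0 := by
  rw [← nonpos_iff_eq_zero]
  refine le_of_forall_gt fun ε hε => ?_
  have hε : 0 < ε := hε
  obtain ⟨ε', hε'0, hε'⟩ := exists_between hε
  have : Nonempty (Amoeba μ ε') := ⟨⟨∅, isOpen_empty, by simpa using hε'0⟩⟩
  obtain ⟨G, ⟨V0, hV0⟩, _, hG, hGD⟩ := ma_indexed hMA
    (amoeba_ccc μ (ε := ε')) hι
    (fun i => {V | N i ⊆ V.1}) (by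
      intro i V
      obtain ⟨O, hO1, hO2, hO3⟩ := Set.exists_isOpen_lt_of_lt (μ := μ) (N i)
        (ε' - μ V.1) (by rw [hN i]; exact tsub_pos_of_lt V.2.2)
      refine ⟨⟨V.1 ∪ O, V.2.1.union hO2, ?_⟩, hO1.trans Set.subset_union_right,
        Set.subset_union_left⟩
      calc μ (V.1 ∪ O) ≤ μ V.1 + μ O := measure_union_le _ _
        _ < μ V.1 + (ε' - μ V.1) :=
            ENNReal.add_lt_add_left (V.2.2.trans_le le_top).ne hO3
        _ = ε' := add_tsub_cancel_of_le V.2.2.le)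
  have hfin : ∀ t : Finset (Amoeba μ ε'), (∀ V ∈ t, V ∈ G) → ∃ W ∈ G, ∀ V ∈ t, V.1 ⊆ W.1 := by
    classical
    intro t
    induction t using Finset.induction_on with
    | empty => exact fun _ => ⟨V0, hV0, by simp⟩
    | insert V t _ ih =>
      intro h
      obtain ⟨W, hW, h1⟩ := ih fun V' hV' => h V' (Finset.mem_insert_of_mem hV')
      obtain ⟨r, hr, h2, h3⟩ := hG V (h V (Finset.mem_insert_self _ _)) W hW
      refine ⟨r, hr, fun V' hV' => ?_⟩
      rcases Finset.mem_insert.1 hV' with rfl | h4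
      · exact h2
      · exact (h1 V' h4).trans h3
  obtain ⟨T, hTsub, hTc, hTeq⟩ := TopologicalSpace.isOpen_biUnion_countable G (fun V => V.1)
    (fun V _ => V.2.1)
  have hle : μ (⋃ V ∈ G, V.1) ≤ ε' := by
    rw [← hTeq, Set.biUnion_eq_iUnion]
    have : Countable T := hTc.to_subtype
    rw [measure_iUnion_eq_iSup_finset]
    refine iSup_le fun t => ?_
    obtain ⟨W, _, hW⟩ := hfin (t.map (Function.Embedding.subtype _)) (by
      intro V hV
      obtain ⟨V', _, rfl⟩ := Finset.mem_map.1 hV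
      exact hTsub V'.2)
    refine (measure_mono ?_).trans W.2.2.le
    refine Set.iUnion₂_subset fun V hV => hW V.1 ?_
    exact Finset.mem_map.2 ⟨V, hV, rfl⟩
  refine ((measure_mono ?_).trans hle).trans_lt hε'
  refine Set.iUnion_subset fun i => ?_
  obtain ⟨V, hV, hVi⟩ := hGD i
  exact Set.Subset.trans hVi (Set.subset_biUnion_of_mem (u := fun V : Amoeba μ ε' => V.1) hV)

end measure

/-- closed nowhere dense sets -/
def CND (F : Set (ℕ → Bool)) : Prop := IsClosed F ∧ interior F = ∅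

theorem cyl_nonempty (σ : List Bool) : (cyl σ).Nonempty :=
  ⟨fun i => σ.getD i false, fun _ _ => rfl⟩

theorem cyl_anti {σ τ : List Bool} (h : σ <+: τ) : cyl τ ⊆ cyl σ := by
  intro x hx i hi
  obtain ⟨ρ, rfl⟩ := h
  rw [hx i (by rw [List.length_append]; omega), List.getD_append _ _ _ _ hi]

/-- The extensions of `σ`. -/
structure Ext (σ : List Bool) where
  val : List Bool
  property : σ <+: val

instance (σ : List Bool) : Preorder (Ext σ) where
  le τ ρ := ρ.val <+: τ.val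
  le_refl _ := List.prefix_rfl
  le_trans _ _ _ h1 h2 := h2.trans h1

instance (σ : List Bool) : Countable (Ext σ) :=
  Function.Injective.countable (f := fun e : Ext σ => e.val) (by
    rintro ⟨a, _⟩ ⟨b, _⟩ h
    simp only at h
    subst h
    rfl)

/-- Under Martin's axiom `ℵ₁` closed nowhere dense sets do not cover a basic clopen set. -/
theorem not_cover_cnd (hMA : MartinAxiomAleph1) {ι : Type} (hι : #ι ≤ ℵ₁)
    (F : ι → Set (ℕ → Bool)) (hF : ∀ i, CND (F i)) (σ : List Bool) :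
    ∃ x ∈ cyl σ, ∀ i, x ∉ F i := by
  classical
  have : Nonempty (Ext σ) := ⟨⟨σ, List.prefix_rfl⟩⟩
  have hccc : IsCCC (Ext σ) := fun A _ => Set.to_countable A
  have hext : ∀ (i : ι) (τ : Ext σ), ∃ ρ : Ext σ, cyl ρ.1 ∩ F i = ∅ ∧ ρ ≤ τ := by
    intro i τ
    have h1 : ¬ cyl τ.1 ⊆ F i := by
      intro h
      have h2 : cyl τ.1 ⊆ interior (F i) := interior_maximal h (isOpen_cyl _)
      rw [(hF i).2] at h2
      obtain ⟨x, hx⟩ := cyl_nonempty τ.1
      exact h2 hx
    obtain ⟨x, hx, hxF⟩ := Set.not_subset.mp h1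
    obtain ⟨n, hn⟩ := exists_seg_subset ((hF i).1.isOpen_compl) hxF
    -- extend to level `max n τ.length`
    have hpre : τ.1 <+: seg x (max n τ.1.length) := by
      rw [List.prefix_iff_eq_take]
      apply List.ext_getElem
      · simp [length_seg]
      · intro j h1 h2
        have h3 := hx j h1
        simp only [seg, List.getElem_take, List.getElem_map, List.getElem_range]
        rw [h3, List.getD_eq_getElem _ _ h1]
    refine ⟨⟨seg x (max n τ.1.length), τ.2.trans hpre⟩, ?_, hpre⟩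
    rw [Set.eq_empty_iff_forall_notMem]
    rintro y ⟨hy1, hy2⟩
    refine hn ?_ hy2
    rw [mem_cyl_seg] at hy1 ⊢
    intro j hj
    exact hy1 j (lt_of_lt_of_le hj (le_max_left _ _))
  obtain ⟨G, ⟨τ0, hτ0⟩, hGup, hGdir, hGD⟩ := ma_indexed hMA hccc (ι := ι ⊕ ℕ) (by
      rw [Cardinal.mk_sum, Cardinal.lift_id, Cardinal.lift_id, Cardinal.mk_nat]
      calc #ι + ℵ₀ ≤ ℵ₁ + ℵ₁ := add_le_add hι (Cardinal.aleph0_le_aleph 1)
        _ = ℵ₁ := Cardinal.add_eq_self (Cardinal.aleph0_le_aleph 1))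
    (fun j => match j with
      | Sum.inl i => {τ | cyl τ.1 ∩ F i = ∅}
      | Sum.inr n => {τ | n ≤ τ.1.length}) (by
      rintro (i | n) τ
      · exact hext i τ
      · refine ⟨⟨τ.1 ++ List.replicate n false, τ.2.trans (List.prefix_append _ _)⟩, ?_,
          List.prefix_append _ _⟩
        change n ≤ (τ.1 ++ List.replicate n false).length
        simp)
  let x : ℕ → Bool := fun n => decide (∃ τ ∈ G, n < τ.1.length ∧ τ.1.getD n false = true)
  have hx : ∀ τ ∈ G, x ∈ cyl τ.1 := by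
    intro τ hτ n hn
    cases hb : τ.1.getD n false with
    | true =>
      have : ∃ τ ∈ G, n < τ.1.length ∧ τ.1.getD n false = true := ⟨τ, hτ, hn, hb⟩
      simp only [x, this, decide_true]
    | false =>
      have : ¬ ∃ τ ∈ G, n < τ.1.length ∧ τ.1.getD n false = true := by
        rintro ⟨τ', hτ', hn', hb'⟩
        obtain ⟨ρ, hρ, h1, h2⟩ := hGdir τ hτ τ' hτ'
        obtain ⟨u, hu⟩ : τ.1 <+: ρ.1 := h1
        obtain ⟨u', hu'⟩ : τ'.1 <+: ρ.1 := h2
        have e1 : ρ.1.getD n false = false := by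
          rw [← hu, List.getD_append _ _ _ _ hn, hb]
        have e2 : ρ.1.getD n false = true := by
          rw [← hu', List.getD_append _ _ _ _ hn', hb']
        rw [e1] at e2
        cases e2
      simp only [x, this, decide_false]
  refine ⟨x, cyl_anti τ0.2 (hx τ0 hτ0), fun i hi => ?_⟩
  obtain ⟨τ, hτG, hτ⟩ := hGD (Sum.inl i)
  have h1 : x ∈ cyl τ.1 ∩ F i := ⟨hx τ hτG, hi⟩
  have h2 : cyl τ.1 ∩ F i = ∅ := hτ
  rw [h2] at h1
  exact h1

/-- Under Martin's axiom `ℵ₁` null sets do not cover a basic clopen set. -/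
theorem not_cover_null (hMA : MartinAxiomAleph1) {ι : Type} (hι : #ι ≤ ℵ₁)
    (F : ι → Set (ℕ → Bool)) (hF : ∀ i, lam (F i) = 0) (σ : List Bool) :
    ∃ x ∈ cyl σ, ∀ i, x ∉ F i := by
  by_contra hcon
  push Not at hcon
  have h1 := null_iUnion lam hMA hι F hF
  have h2 : lam (cyl σ) ≤ lam (⋃ i, F i) := measure_mono fun x hx => by
    obtain ⟨i, hi⟩ := hcon x hx
    exact Set.mem_iUnion.mpr ⟨i, hi⟩
  rw [h1, lam_cyl] at h2
  have h3 : (0 : ENNReal) < (2 : ENNReal)⁻¹ ^ σ.length := by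
    apply ENNReal.pow_pos
    simp
  exact absurd h2 (not_le.mpr h3)

end Pool.Agent.V11242.AV
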