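import Pool.Agent.V11242.AV.MeasMA
import Pool.Agent.W910.Hull.Tower
import Pool.Agent.Y561.KS.Cohen

/-!
# Generalized Luzin and Sierpiński sets
-/

set_option autoImplicit false

namespace Pool.Agent.V11242.AV

open Cardinal MeasureTheory Set Pool.Agent.W684 Pool.Agent.V11242.RN
open Pool.Agent.W910.Hull (Om2 mk_Om2 mk_Iio_Om2)

theorem mk_Iic_Om2 (a : Om2) : #(Set.Iic a) ≤ ℵ₁ := by
  have h1 : Set.Iic a ⊆ Set.Iio a ∪ {a} := by
    intro b hb
    rcases lt_or_eq_of_le (show b ≤ a from hb) with h | h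
    · exact Or.inl h
    · exact Or.inr h
  refine (mk_le_mk_of_subset h1).trans ((mk_union_le _ _).trans ?_)
  calc #(Set.Iio a) + #({a} : Set Om2) ≤ ℵ₁ + ℵ₁ := by
        refine add_le_add (mk_Iio_Om2 a) ?_
        rw [mk_singleton]
        exact Cardinal.one_le_aleph0.trans (Cardinal.aleph0_le_aleph 1)
    _ = ℵ₁ := Cardinal.add_eq_self (Cardinal.aleph0_le_aleph 1)

theorem exists_points (g : Om2 → Set (ℕ → Bool))
    (hcov : ∀ (ι : Type), #ι ≤ ℵ₁ → ∀ F : ι → Set (ℕ → Bool),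
      (∀ i, (∃ a, F i = g a) ∨ ∃ x, F i = {x}) → ∀ σ : List Bool, ∃ x ∈ cyl σ, ∀ i, x ∉ F i)
    (σ : List Bool) :
    ∃ y : Om2 → (ℕ → Bool), ∀ a, y a ∈ cyl σ ∧ (∀ b ≤ a, y a ∉ g b) ∧ ∀ b < a, y a ≠ y b := by
  classical
  have key : ∀ (a : Om2) (f : Iio a → (ℕ → Bool)), ∃ z ∈ cyl σ,
      (∀ b ≤ a, z ∉ g b) ∧ ∀ b : Iio a, z ≠ f b := by
    intro a f
    obtain ⟨z, hz, h⟩ := hcov (Iic a ⊕ Iio a) (by
      rw [Cardinal.mk_sum, Cardinal.lift_id, Cardinal.lift_id]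
      calc #(Iic a) + #(Iio a) ≤ ℵ₁ + ℵ₁ := add_le_add (mk_Iic_Om2 a) (mk_Iio_Om2 a)
        _ = ℵ₁ := Cardinal.add_eq_self (Cardinal.aleph0_le_aleph 1))
      (Sum.elim (fun b => g b.1) (fun b => {f b})) (by
        rintro (b | b)
        · exact Or.inl ⟨b.1, rfl⟩
        · exact Or.inr ⟨f b, rfl⟩) σ
    exact ⟨z, hz, fun b hb => h (Sum.inl ⟨b, hb⟩), fun b => h (Sum.inr b)⟩
  choose Z hZ1 hZ2 hZ3 using key
  let y : Om2 → (ℕ → Bool) := WellFounded.fix (wellFounded_lt (α := Om2)) fun a rec =>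
    Z a fun b => rec b.1 b.2
  have hy : ∀ a, y a = Z a fun b => y b.1 := by
    intro a
    exact WellFounded.fix_eq _ _ a
  refine ⟨y, fun a => ?_⟩
  rw [hy a]
  refine ⟨hZ1 _ _, hZ2 _ _, fun b hb => ?_⟩
  exact hZ3 a (fun b => y b.1) ⟨b, hb⟩

theorem exists_small (𝓕 : Set (Set (ℕ → Bool))) (h𝓕 : #𝓕 ≤ ℵ_ 2) (hne : 𝓕.Nonempty)
    (hcov : ∀ (ι : Type), #ι ≤ ℵ₁ → ∀ F : ι → Set (ℕ → Bool),
      (∀ i, F i ∈ 𝓕) → ∀ σ : List Bool, ∃ x ∈ cyl σ, ∀ i, x ∉ F i)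
    (hsing : ∀ x, {x} ∈ 𝓕) :
    ∃ W : Set (ℕ → Bool), (∀ σ : List Bool, ℵ_ 2 ≤ #(W ∩ cyl σ : Set (ℕ → Bool))) ∧
      ∀ F ∈ 𝓕, #(W ∩ F : Set (ℕ → Bool)) ≤ ℵ₁ := by
  classical
  rw [← mk_Om2] at h𝓕
  obtain ⟨e⟩ := h𝓕
  have : Nonempty 𝓕 := hne.to_subtype
  obtain ⟨g, hg⟩ : ∃ g : Om2 → 𝓕, Function.Surjective g :=
    ⟨Function.invFun e, Function.invFun_surjective e.injective⟩
  have h1 := exists_points (fun a => (g a).1) (by
    intro ι hι F hF σ
    refine hcov ι hι F (fun i => ?_) σ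
    rcases hF i with ⟨a, ha⟩ | ⟨x, hx⟩
    · rw [ha]; exact (g a).2
    · rw [hx]; exact hsing x)
  choose y hy using h1
  refine ⟨⋃ σ : List Bool, range (y σ), fun σ => ?_, fun F hF => ?_⟩
  · have hinj : Function.Injective (y σ) := by
      intro a b hab
      rcases lt_trichotomy a b with h | h | h
      · exact absurd hab.symm ((hy σ b).2.2 a h)
      · exact h
      · exact absurd hab ((hy σ a).2.2 b h)
    have h2 : #(range (y σ)) = ℵ_ 2 := by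
      rw [Cardinal.mk_range_eq _ hinj, mk_Om2]
    rw [← h2]
    refine mk_le_mk_of_subset ?_
    rintro _ ⟨a, rfl⟩
    exact ⟨mem_iUnion.mpr ⟨σ, a, rfl⟩, (hy σ a).1⟩
  · obtain ⟨c, hc⟩ := hg ⟨F, hF⟩
    have h2 : (⋃ σ : List Bool, range (y σ)) ∩ F ⊆ ⋃ σ : List Bool, y σ '' Iio c := by
      rintro x ⟨hx, hxF⟩
      obtain ⟨σ, a, rfl⟩ := mem_iUnion.mp hx
      refine mem_iUnion.mpr ⟨σ, a, ?_, rfl⟩
      by_contra hcon
      have h3 := (hy σ a).2.1 c (not_lt.mp hcon)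
      rw [hc] at h3
      exact h3 hxF
    refine (mk_le_mk_of_subset h2).trans ((mk_iUnion_le _).trans ?_)
    calc #(List Bool) * (⨆ σ, #(y σ '' Iio c)) ≤ ℵ₀ * ℵ₁ := by
          refine mul_le_mul' mk_le_aleph0 ?_
          apply ciSup_le'
          intro σ
          exact mk_image_le.trans (mk_Iio_Om2 c)
      _ ≤ ℵ₁ * ℵ₁ := mul_le_mul' (Cardinal.aleph0_le_aleph 1) le_rfl
      _ = ℵ₁ := Cardinal.mul_eq_self (Cardinal.aleph0_le_aleph 1)

theorem mk_measurable_le : #{N : Set (ℕ → Bool) // MeasurableSet N} ≤ 𝔠 := by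
  have h3 := MeasurableSpace.cardinal_measurableSet_le_continuum (α := ℕ → Bool)
    (s := MeasurableSpace.countableGeneratingSet (ℕ → Bool))
    (Set.Countable.le_aleph0 (MeasurableSpace.countable_countableGeneratingSet) |>.trans
      Cardinal.aleph0_le_continuum)
  have h4 : MeasurableSpace.generateFrom (MeasurableSpace.countableGeneratingSet (ℕ → Bool)) =
    (inferInstance : MeasurableSpace (ℕ → Bool)) :=
      MeasurableSpace.generateFrom_countableGeneratingSet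
  rw [h4] at h3
  exact h3

theorem mk_family_le {𝓕 : Set (Set (ℕ → Bool))} (h : ∀ F ∈ 𝓕, MeasurableSet F) : #𝓕 ≤ 𝔠 :=
  (Cardinal.mk_le_of_injective (f := fun N : 𝓕 =>
    (⟨N.1, h _ N.2⟩ : {N : Set (ℕ → Bool) // MeasurableSet N})) (fun N M h => by
      simpa [Subtype.ext_iff] using h)).trans mk_measurable_le

theorem interior_singleton' (x : ℕ → Bool) : interior ({x} : Set (ℕ → Bool)) = ∅ := by
  rw [Set.eq_empty_iff_forall_notMem]
  intro y hy
  obtain ⟨n, hn⟩ := exists_seg_subset isOpen_interior hy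
  have h1 : ∀ z ∈ cyl (seg y n), z = x := fun z hz =>
    Set.mem_singleton_iff.mp (interior_subset (s := ({x} : Set (ℕ → Bool))) (hn hz))
  have h2 := h1 y (mem_cyl_seg.mpr fun _ _ => rfl)
  have h3 := h1 (fun i => if i = n then !(y i) else y i) (mem_cyl_seg.mpr fun i hi => by
    rw [if_neg (by omega)])
  have h4 := congrFun (h2.trans h3.symm) n
  simp at h4

theorem lam_singleton (x : ℕ → Bool) : lam {x} = 0 := by
  rw [← nonpos_iff_eq_zero]
  refine le_of_forall_gt fun ε hε => ?_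
  have hε : (0 : ENNReal) < ε := hε
  obtain ⟨n, hn⟩ := ENNReal.exists_inv_two_pow_lt hε.ne'
  refine lt_of_le_of_lt ?_ hn
  calc lam {x} ≤ lam (cyl (seg x n)) := measure_mono (by
        rintro y rfl
        exact mem_cyl_seg.mpr fun _ _ => rfl)
    _ = _ := by rw [lam_cyl, length_seg]

/-- A generalized Luzin set. -/
theorem exists_luzin (hMA : MartinAxiomAleph1) (hc : (𝔠 : Cardinal.{0}) ≤ ℵ_ 2) :
    ∃ W : Set (ℕ → Bool), (∀ σ : List Bool, ℵ_ 2 ≤ #(W ∩ cyl σ : Set (ℕ → Bool))) ∧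
      ∀ F, CND F → #(W ∩ F : Set (ℕ → Bool)) ≤ ℵ₁ := by
  refine exists_small {F | CND F} ((mk_family_le fun F hF => hF.1.measurableSet).trans hc)
    ⟨∅, isClosed_empty, interior_empty⟩ ?_ fun x => ⟨isClosed_singleton, interior_singleton' x⟩
  intro ι hι F hF σ
  exact not_cover_cnd hMA hι F hF σ

/-- A generalized Sierpiński set. -/
theorem exists_sierpinski (hMA : MartinAxiomAleph1) (hc : (𝔠 : Cardinal.{0}) ≤ ℵ_ 2) :
    ∃ W : Set (ℕ → Bool), (∀ σ : List Bool, ℵ_ 2 ≤ #(W ∩ cyl σ : Set (ℕ → Bool))) ∧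
      ∀ N, lam N = 0 → #(W ∩ N : Set (ℕ → Bool)) ≤ ℵ₁ := by
  obtain ⟨W, h1, h2⟩ := exists_small {F | MeasurableSet F ∧ lam F = 0}
    ((mk_family_le fun F hF => hF.1).trans hc)
    ⟨∅, MeasurableSet.empty, measure_empty⟩ (by
      intro ι hι F hF σ
      exact not_cover_null hMA hι F (fun i => (hF i).2) σ)
    fun x => ⟨measurableSet_singleton x, lam_singleton x⟩
  refine ⟨W, h1, fun N hN => ?_⟩
  refine (mk_le_mk_of_subset (Set.inter_subset_inter_right W (subset_toMeasurable lam N))).trans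
    (h2 _ ⟨measurableSet_toMeasurable _ _, by rw [measure_toMeasurable, hN]⟩)

end Pool.Agent.V11242.AV
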